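import Pool.Agent.Lib.MP_f09365_an.Limit

namespace Pool.Agent.Results.MP_f09365_an.MinimalZ

open Pool.Agent.Lib.MP_f09365_an

universe v

/-- Every C*-algebra generated by a covariant representation of a minimal homeomorphism of an
infinite compact metric space (in particular the crossed product) is the closure of an increasing
sequence of subhomogeneous C*-subalgebras. -/
theorem result {X : Type*} [MetricSpace X] [CompactSpace X] [Infinite X] (h : X ≃ₜ X)
    (hmin : ∀ x : X, Dense (Set.range fun n : ℤ => (h ^ n) x))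
    {A : Type*} [CStarAlgebra A] (φ : C(X, ℂ) →⋆ₐ[ℂ] A) (u : A) (hu : u ∈ unitary A)
    (hcov : ∀ f : C(X, ℂ), u * φ f * star u = φ (f.comp (h.symm : C(X, X))))
    (hgen : (StarAlgebra.adjoin ℂ (Set.range φ ∪ {u})).topologicalClosure = ⊤) :
    ∃ B : ℕ → StarSubalgebra ℂ A, Monotone B ∧ (∀ n, IsClosed (B n : Set A)) ∧
      (∀ n, Subhomogeneous.{v} (B n)) ∧ Dense (⋃ n, (B n : Set A)) :=
  ash (u := ⟨u, hu⟩) (cov_of h φ ⟨u, hu⟩ hcov) hmin hgen

end Pool.Agent.Results.MP_f09365_an.MinimalZ
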