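import Pool.Agent.Lib.MP_f09365_an.M.St
import Pool.Agent.Lib.MP_f09365_an.M.Simple
import Pool.Agent.Lib.MP_f09365_an.M.Trace
import Pool.Agent.Lib.MP_f09365_an.M.Nuc
import Pool.Agent.Lib.MP_f09365_an.M.NotGL
import Pool.Agent.Lib.MP_f09365_an.M.Engel

namespace Pool.Agent.Results.MP_f09365_an.NotASH

open Pool.Agent.Lib.MP_f09365_an.M

universe u

/-- There is a unital, simple, separable, nuclear C*-algebra with a tracial state which is not
approximately subhomogeneous. -/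
theorem result : ∃ (A : Type) (_ : CStarAlgebra A), Nontrivial A ∧
    (∀ J : TwoSidedIdeal A, IsClosed (J : Set A) → J = ⊥ ∨ J = ⊤) ∧
    TopologicalSpace.SeparableSpace A ∧ IsNuclear A ∧ (∃ τ : A →ₗ[ℂ] ℂ, IsTrace τ) ∧
    ¬∃ (B : ℕ → Type u) (_ : ∀ n, NonUnitalCStarAlgebra (B n)), System A B := by
  refine ⟨AA, inferInstance, inferInstance, simple_AA, separable_AA, nuclear_AA, trace_AA,
    fun h => ?_⟩
  obtain ⟨W, U, H⟩ := notGL
  obtain ⟨j, γ, h1, h2, h3, h4⟩ := engel (show WeakASH.{u} AA from h) W U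
  exact H j γ h1 h2 h3 h4

end Pool.Agent.Results.MP_f09365_an.NotASH
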